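import Mathlib

open Set Filter Topology
open scoped ContDiff

namespace Pool.Agent.Results.MP_2dff6e_gt.PuncturedPlane

section Definitions

variable {E : Type} [NormedAddCommGroup E] [NormedSpace ℝ E]

/-- `Ω` is a symplectic form on the open subset `M` of the real vector space `E`: a smooth field of
alternating nondegenerate bilinear forms with exterior derivative zero. -/
structure SymplecticOn (M : Set E) (Ω : E → E →L[ℝ] E →L[ℝ] ℝ) : Prop where
  isOpen : IsOpen M
  smooth : ContDiffOn ℝ ∞ Ω M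
  alternating : ∀ x ∈ M, ∀ v, Ω x v v = 0
  nondegenerate : ∀ x ∈ M, ∀ v, (∀ w, Ω x v w = 0) → v = 0
  closed : ∀ x ∈ M, ∀ u v w,
    fderiv ℝ Ω x u v w + fderiv ℝ Ω x v w u + fderiv ℝ Ω x w u v = 0

/-- `φ` restricts to a smooth diffeomorphism of `M` onto `M` preserving `Ω` and equal to the
identity off `K`. -/
structure IsSymplectomorphism (M : Set E) (Ω : E → E →L[ℝ] E →L[ℝ] ℝ) (K : Set E)
    (φ : E → E) : Prop where
  smooth : ContDiffOn ℝ ∞ φ M
  mapsTo : MapsTo φ M M
  inverse : ∃ χ : E → E, ContDiffOn ℝ ∞ χ M ∧ MapsTo χ M M ∧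
    ∀ x ∈ M, χ (φ x) = x ∧ φ (χ x) = x
  symplectic : ∀ x ∈ M, ∀ v w, Ω (φ x) (fderiv ℝ φ x v) (fderiv ℝ φ x w) = Ω x v w
  support : ∀ x ∈ M, x ∉ K → φ x = x

/-- The group of compactly supported symplectomorphisms of `(M, Ω)` (maps of `E` of which only the
restriction to `M` matters). -/
def SympC (M : Set E) (Ω : E → E →L[ℝ] E →L[ℝ] ℝ) : Set (E → E) :=
  {φ | ∃ K ⊆ M, IsCompact K ∧ IsSymplectomorphism M Ω K φ}

/-- Its identity component: the symplectomorphisms joined to the identity by a smooth path of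
symplectomorphisms, all supported in one fixed compact subset of `M`. -/
def SympC0 (M : Set E) (Ω : E → E →L[ℝ] E →L[ℝ] ℝ) : Set (E → E) :=
  {φ | ∃ K ⊆ M, IsCompact K ∧ ∃ Φ : ℝ → E → E,
    ContDiffOn ℝ ∞ (fun p : ℝ × E => Φ p.1 p.2) (Icc (0 : ℝ) 1 ×ˢ M) ∧
    (∀ t ∈ Icc (0 : ℝ) 1, IsSymplectomorphism M Ω K (Φ t)) ∧
    (∀ x ∈ M, Φ 0 x = x) ∧ ∀ x ∈ M, Φ 1 x = φ x}

/-- Convergence of sequences for the topology of uniform convergence on compact subsets of `M`. -/
def C0Tendsto (M : Set E) (φ : ℕ → E → E) (ψ : E → E) : Prop :=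
  ∀ L ⊆ M, IsCompact L → TendstoUniformlyOn φ ψ atTop L

end Definitions

/-- The standard area form `dx ∧ dy` of the plane. -/
noncomputable def area : ℂ → ℂ →L[ℝ] ℂ →L[ℝ] ℝ := fun _ =>
  Complex.reCLM.smulRight Complex.imCLM - Complex.imCLM.smulRight Complex.reCLM

lemma area_apply (x v w : ℂ) : area x v w = v.re * w.im - v.im * w.re := by
  simp [area]

lemma symplectic_area : SymplecticOn ({0}ᶜ : Set ℂ) area where
  isOpen := isOpen_compl_singleton
  smooth := contDiffOn_const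
  alternating x _ v := by rw [area_apply]; ring
  nondegenerate x _ v h := by
    have h1 := h 1
    have h2 := h Complex.I
    rw [area_apply] at h1 h2
    simp at h1 h2
    exact Complex.ext h2 h1
  closed x _ u v w := by
    have : fderiv ℝ area x = 0 := by
      unfold area
      exact (hasFDerivAt_const _ _).fderiv
    simp [this]

/-- The rotation of the circle `|z|² = N` by the angle `α N`. -/
noncomputable def tw (α : ℝ → ℝ) (z : ℂ) : ℂ :=
  Complex.exp ((α (Complex.normSq z) : ℂ) * Complex.I) * z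

lemma contDiff_normSq : ContDiff ℝ ∞ (fun z : ℂ => Complex.normSq z) := by
  have : (fun z : ℂ => Complex.normSq z) = fun z : ℂ => z.re * z.re + z.im * z.im := by
    ext z; rw [Complex.normSq_apply]
  rw [this]
  exact ((Complex.reCLM.contDiff.mul Complex.reCLM.contDiff).add
    (Complex.imCLM.contDiff.mul Complex.imCLM.contDiff))

lemma normSq_tw (α : ℝ → ℝ) (z : ℂ) : Complex.normSq (tw α z) = Complex.normSq z := by
  unfold tw
  rw [map_mul, Complex.normSq_eq_norm_sq, Complex.norm_exp_ofReal_mul_I]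
  simp

lemma tw_ne_zero (α : ℝ → ℝ) {z : ℂ} (hz : z ≠ 0) : tw α z ≠ 0 := by
  unfold tw
  exact mul_ne_zero (Complex.exp_ne_zero _) hz

lemma tw_tw (α β : ℝ → ℝ) (z : ℂ) : tw α (tw β z) = tw (fun N => α N + β N) z := by
  have h := normSq_tw β z
  have : tw α (tw β z) = Complex.exp ((α (Complex.normSq (tw β z)) : ℂ) * Complex.I) * tw β z := rfl
  rw [this, h]
  unfold tw
  rw [← mul_assoc, ← Complex.exp_add]
  push_cast
  ring_nf

lemma tw_zero (z : ℂ) : tw (fun _ => 0) z = z := by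
  simp [tw]


lemma area_unit_mul (x y c v w : ℂ) (hc : ‖c‖ = 1) : area x (c * v) (c * w) = area y v w := by
  have h : Complex.normSq c = 1 := by rw [Complex.normSq_eq_norm_sq, hc]; norm_num
  rw [Complex.normSq_apply] at h
  rw [area_apply, area_apply]
  simp only [Complex.mul_re, Complex.mul_im]
  linear_combination (v.re * w.im - v.im * w.re) * h

lemma hasFDerivAt_normSq (z : ℂ) : HasFDerivAt (fun z : ℂ => Complex.normSq z)
    ((2 * z.re) • Complex.reCLM + (2 * z.im) • Complex.imCLM) z := by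
  have : (fun z : ℂ => Complex.normSq z) = fun z : ℂ => z.re * z.re + z.im * z.im := by
    ext z; rw [Complex.normSq_apply]
  rw [this]
  have h1 : HasFDerivAt (fun z : ℂ => z.re) Complex.reCLM z := Complex.reCLM.hasFDerivAt
  have h2 : HasFDerivAt (fun z : ℂ => z.im) Complex.imCLM z := Complex.imCLM.hasFDerivAt
  refine ((h1.mul h1).add (h2.mul h2)).congr_fderiv ?_
  ext v
  simp
  ring

lemma hasFDerivAt_tw {α : ℝ → ℝ} (hα : ContDiff ℝ ∞ α) (z : ℂ) :
    ∃ D : ℂ →L[ℝ] ℂ, HasFDerivAt (tw α) D z ∧ ∀ v, D v =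
      Complex.exp ((α (Complex.normSq z) : ℂ) * Complex.I) *
        (v + ((deriv α (Complex.normSq z) * (2 * z.re * v.re + 2 * z.im * v.im) : ℝ) : ℂ)
          * (Complex.I * z)) := by
  have h1 : HasDerivAt α (deriv α (Complex.normSq z)) (Complex.normSq z) :=
    (hα.differentiable (by simp)).differentiableAt.hasDerivAt
  have h2 := h1.comp_hasFDerivAt z (hasFDerivAt_normSq z)
  have h3 : HasFDerivAt (fun z : ℂ => ((α (Complex.normSq z) : ℝ) : ℂ) * Complex.I)
      ((Complex.ofRealCLM.comp (deriv α (Complex.normSq z) •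
        ((2 * z.re) • Complex.reCLM + (2 * z.im) • Complex.imCLM))).smulRight Complex.I) z := by
    have h4 := (Complex.ofRealCLM.hasFDerivAt.comp z h2)
    refine (h4.mul_const Complex.I).congr_fderiv ?_
    ext v
    simp
    ring
  have h5 := h3.cexp
  have h6 := h5.mul (hasFDerivAt_id z)
  refine ⟨_, h6, fun v => ?_⟩
  simp
  ring

lemma contDiff_tw {α : ℝ → ℝ} (hα : ContDiff ℝ ∞ α) :
    ContDiff ℝ ∞ (fun p : ℝ × ℂ => tw (fun N => p.1 * α N) p.2) := by
  have h1 : ContDiff ℝ ∞ (fun p : ℝ × ℂ => α (Complex.normSq p.2)) :=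
    hα.comp (contDiff_normSq.comp contDiff_snd)
  have h2 : ContDiff ℝ ∞ (fun p : ℝ × ℂ => p.1 * α (Complex.normSq p.2)) :=
    contDiff_fst.mul h1
  have h3 : ContDiff ℝ ∞ (fun p : ℝ × ℂ => ((p.1 * α (Complex.normSq p.2) : ℝ) : ℂ)) :=
    Complex.ofRealCLM.contDiff.comp h2
  have h4 : ContDiff ℝ ∞ (fun p : ℝ × ℂ =>
      ((p.1 * α (Complex.normSq p.2) : ℝ) : ℂ) * Complex.I) := h3.mul contDiff_const
  exact h4.cexp.mul contDiff_snd

lemma contDiff_tw' {α : ℝ → ℝ} (hα : ContDiff ℝ ∞ α) : ContDiff ℝ ∞ (tw α) := by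
  have h := (contDiff_tw hα).comp
    (contDiff_const.prodMk contDiff_id : ContDiff ℝ ∞ (fun z : ℂ => ((1 : ℝ), z)))
  have h2 : (fun p : ℝ × ℂ => tw (fun N => p.1 * α N) p.2) ∘ (fun z : ℂ => ((1 : ℝ), z)) = tw α := by
    ext z
    simp [tw]
  rwa [h2] at h

lemma area_tw {α : ℝ → ℝ} (hα : ContDiff ℝ ∞ α) (z v w : ℂ) :
    area (tw α z) (fderiv ℝ (tw α) z v) (fderiv ℝ (tw α) z w) = area z v w := by
  obtain ⟨D, hD, hD'⟩ := hasFDerivAt_tw hα z
  rw [hD.fderiv, hD' v, hD' w, area_unit_mul _ z _ _ _ (Complex.norm_exp_ofReal_mul_I _),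
    area_apply, area_apply]
  simp
  ring

lemma isSymplectomorphism_tw {α : ℝ → ℝ} (hα : ContDiff ℝ ∞ α) {K : Set ℂ}
    (hK : ∀ z : ℂ, z ∉ K → α (Complex.normSq z) = 0 ∨ α (Complex.normSq z) = 2 * Real.pi ∨ z = 0) :
    IsSymplectomorphism ({0}ᶜ : Set ℂ) area K (tw α) where
  smooth := (contDiff_tw' hα).contDiffOn
  mapsTo z hz := tw_ne_zero α hz
  inverse := by
    refine ⟨tw (fun N => - α N), (contDiff_tw' hα.neg).contDiffOn, fun z hz => tw_ne_zero _ hz, ?_⟩
    intro z _
    rw [tw_tw, tw_tw]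
    constructor
    · simpa using tw_zero z
    · simpa using tw_zero z
  symplectic z _ v w := area_tw hα z v w
  support z _ hz := by
    rcases hK z hz with h | h | h
    · simp [tw, h]
    · simp [tw, h]
    · simp [h, tw]


/-- The profile of the Dehn twist: `0` for `N ≤ 1`, a full turn for `N ≥ 2`. -/
noncomputable def prof (N : ℝ) : ℝ := 2 * Real.pi * Real.smoothTransition (N - 1)

lemma contDiff_prof : ContDiff ℝ ∞ prof :=
  contDiff_const.mul (Real.smoothTransition.contDiff.comp (contDiff_id.sub contDiff_const))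

/-- The profile of the approximations. -/
noncomputable def profk (k : ℕ) (N : ℝ) : ℝ := prof N - prof ((k + 2 : ℝ) * N)

lemma contDiff_profk (k : ℕ) : ContDiff ℝ ∞ (profk k) :=
  contDiff_prof.sub (contDiff_prof.comp (contDiff_const.mul contDiff_id))

lemma prof_of_le {N : ℝ} (h : N ≤ 1) : prof N = 0 := by
  unfold prof
  rw [Real.smoothTransition.zero_of_nonpos (by linarith)]
  ring

lemma prof_of_ge {N : ℝ} (h : 2 ≤ N) : prof N = 2 * Real.pi := by
  unfold prof
  rw [Real.smoothTransition.one_of_one_le (by linarith)]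
  ring

/-- A closed annulus. -/
def annulus (a b : ℝ) : Set ℂ := {z | a ≤ Complex.normSq z ∧ Complex.normSq z ≤ b}

lemma isCompact_annulus (a b : ℝ) : IsCompact (annulus a b) := by
  refine Metric.isCompact_of_isClosed_isBounded ?_ ?_
  · exact (isClosed_le continuous_const Complex.continuous_normSq).inter
      (isClosed_le Complex.continuous_normSq continuous_const)
  · refine (Metric.isBounded_closedBall (x := (0 : ℂ)) (r := Real.sqrt b)).subset ?_
    intro z hz
    rw [mem_closedBall_zero_iff]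
    apply Real.le_sqrt_of_sq_le
    rw [← Complex.normSq_eq_norm_sq]
    exact hz.2

lemma annulus_subset {a b : ℝ} (ha : 0 < a) : annulus a b ⊆ ({0}ᶜ : Set ℂ) := by
  intro z hz h0
  have : z = 0 := h0
  have h1 := hz.1
  rw [this] at h1
  simp at h1
  linarith

lemma twist_mem_SympC : tw prof ∈ SympC ({0}ᶜ : Set ℂ) area := by
  refine ⟨annulus 1 2, annulus_subset one_pos, isCompact_annulus 1 2,
    isSymplectomorphism_tw contDiff_prof ?_⟩
  intro z hz
  by_cases h : 1 ≤ Complex.normSq z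
  · right; left
    apply prof_of_ge
    by_contra h2
    exact hz ⟨h, by linarith⟩
  · left
    exact prof_of_le (by linarith)

lemma twistk_mem_SympC0 (k : ℕ) : tw (profk k) ∈ SympC0 ({0}ᶜ : Set ℂ) area := by
  have hk : (0 : ℝ) < (k : ℝ) + 2 := by positivity
  refine ⟨annulus (1 / (k + 2 : ℝ)) 2, annulus_subset (by positivity), isCompact_annulus _ _,
    fun t => tw (fun N => t * profk k N), (contDiff_tw (contDiff_profk k)).contDiffOn, ?_, ?_, ?_⟩
  · intro t _
    refine isSymplectomorphism_tw (contDiff_const.mul (contDiff_profk k)) ?_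
    intro z hz
    left
    by_cases h : 1 / (k + 2 : ℝ) ≤ Complex.normSq z
    · have h2 : 2 < Complex.normSq z := by
        by_contra h2
        exact hz ⟨h, by linarith⟩
      have h3 : 2 ≤ (k + 2 : ℝ) * Complex.normSq z := by nlinarith
      simp [profk, prof_of_ge h2.le, prof_of_ge h3]
    · have h2 : Complex.normSq z < 1 / (k + 2 : ℝ) := not_le.mp h
      have h3 : (k + 2 : ℝ) * Complex.normSq z ≤ 1 := by
        rw [lt_div_iff₀ hk] at h2
        linarith
      have h4 : Complex.normSq z ≤ 1 := by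
        have := Complex.normSq_nonneg z
        nlinarith
      simp [profk, prof_of_le h3, prof_of_le h4]
  · intro x _
    simp [tw]
  · intro x _
    simp [tw]

lemma twistk_tendsto : TendstoUniformlyOn (fun k => tw (profk k)) (tw prof) atTop
    ({0}ᶜ : Set ℂ) := by
  rw [Metric.tendstoUniformlyOn_iff]
  intro ε hε
  obtain ⟨n, hn⟩ := exists_nat_gt (8 / ε ^ 2)
  filter_upwards [eventually_ge_atTop n] with k hk z _
  have hk' : (n : ℝ) ≤ k := by exact_mod_cast hk
  have hk0 : (0 : ℝ) < (k : ℝ) + 2 := by positivity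
  have hpos : (0 : ℝ) < ε ^ 2 := by positivity
  by_cases h : 2 ≤ (k + 2 : ℝ) * Complex.normSq z
  · have : tw (profk k) z = tw prof z := by
      unfold tw profk
      rw [prof_of_ge h]
      push_cast
      rw [sub_mul, Complex.exp_sub, Complex.exp_two_pi_mul_I]
      simp
    rw [this, dist_self]
    exact hε
  · have h2 : (k + 2 : ℝ) * Complex.normSq z < 2 := not_le.mp h
    have h3 : dist (tw prof z) (tw (profk k) z) ≤ 2 * ‖z‖ := by
      rw [dist_eq_norm]
      refine (norm_sub_le _ _).trans ?_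
      unfold tw
      rw [norm_mul, norm_mul, Complex.norm_exp_ofReal_mul_I, Complex.norm_exp_ofReal_mul_I]
      linarith
    refine h3.trans_lt ?_
    rw [Complex.normSq_eq_norm_sq] at h2
    have h4 : 8 < ε ^ 2 * ((k : ℝ) + 2) := by
      rw [div_lt_iff₀ hpos] at hn
      nlinarith
    have h5 : (2 * ‖z‖) ^ 2 < ε ^ 2 := by
      by_contra h6
      have h6 := not_lt.mp h6
      nlinarith
    exact lt_of_pow_lt_pow_left₀ 2 hε.le h5


/-- A nonvanishing logarithm `g` of a path `γ` in the punctured plane is the lift of `γ`. -/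
lemma lift_eq {γ : C(unitInterval, {z : ℂ // z ≠ 0})} {e : ℂ}
    (h0 : γ 0 = ⟨Complex.exp e, Complex.exp_ne_zero e⟩)
    {g : unitInterval → ℂ} (hg : Continuous g) (h1 : ∀ s, Complex.exp (g s) = (γ s : ℂ))
    (h2 : g 0 = e) : g 1 = Complex.isCoveringMap_exp.liftPath γ e h0 1 := by
  have := (Complex.isCoveringMap_exp.eq_liftPath_iff (γ := γ) (e := e) h0 (Γ := g)).2
    ⟨hg, by ext s; exact h1 s, h2⟩
  rw [this]

lemma twist_not_mem_SympC0 : tw prof ∉ SympC0 ({0}ᶜ : Set ℂ) area := by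
  rintro ⟨K, hKM, hK, Φ, hΦ, hS, h0, h1⟩
  obtain ⟨ε, hε, hεK⟩ : ∃ ε > 0, ∀ z ∈ K, ε < ‖z‖ := by
    have hopen : IsOpen (Kᶜ : Set ℂ) := hK.isClosed.isOpen_compl
    have h0K : (0 : ℂ) ∈ Kᶜ := fun h => hKM h rfl
    obtain ⟨ε, hε, hball⟩ := Metric.isOpen_iff.1 hopen 0 h0K
    refine ⟨ε / 2, by positivity, fun z hz => ?_⟩
    by_contra hcon
    have : z ∈ Metric.ball (0 : ℂ) ε := by
      rw [mem_ball_zero_iff]
      linarith [not_lt.1 hcon]
    exact hball this hz
  obtain ⟨R, hR⟩ : ∃ R : ℝ, ∀ z ∈ K, ‖z‖ < R := by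
    obtain ⟨R, hR⟩ := hK.isBounded.subset_ball 0
    exact ⟨R, fun z hz => by simpa using hR hz⟩
  set a : ℝ := min ε 1 with ha
  set b : ℝ := max R 2 with hb
  have ha0 : 0 < a := lt_min hε one_pos
  have ha1 : a ≤ 1 := min_le_right _ _
  have hb2 : 2 ≤ b := le_max_right _ _
  -- the ray
  set r : unitInterval → ℝ := fun s => a + s * (b - a) with hr
  have hr0 : ∀ s, 0 < r s := by
    intro s
    have := s.2.1
    simp only [hr]
    nlinarith
  have hrc : Continuous r := by fun_prop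
  have hrne : ∀ s, ((r s : ℝ) : ℂ) ∈ ({0}ᶜ : Set ℂ) := by
    intro s h
    have h' : ((r s : ℝ) : ℂ) = 0 := h
    exact (hr0 s).ne' (by exact_mod_cast h')
  have haK : ((a : ℝ) : ℂ) ∉ K := by
    intro h
    have := hεK _ h
    rw [Complex.norm_real, Real.norm_of_nonneg ha0.le] at this
    exact absurd (min_le_left ε 1) (not_le.2 this)
  have hbK : ((b : ℝ) : ℂ) ∉ K := by
    intro h
    have := hR _ h
    rw [Complex.norm_real, Real.norm_of_nonneg (by linarith)] at this
    exact absurd (le_max_left R 2) (not_le.2 this)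
  have hcont : ContinuousOn (fun p : ℝ × ℂ => Φ p.1 p.2) (Icc (0 : ℝ) 1 ×ˢ ({0}ᶜ : Set ℂ)) :=
    hΦ.continuousOn
  have hFc : Continuous (fun q : unitInterval × unitInterval => Φ q.1 ((r q.2 : ℝ) : ℂ)) := by
    have h2 : Continuous (fun q : unitInterval × unitInterval =>
        (((q.1 : ℝ), ((r q.2 : ℝ) : ℂ)) : ℝ × ℂ)) := by fun_prop
    exact hcont.comp_continuous h2 (fun q => ⟨q.1.2, hrne q.2⟩)
  let F : C(unitInterval × unitInterval, {z : ℂ // z ≠ 0}) :=
    ⟨fun q => ⟨Φ q.1 ((r q.2 : ℝ) : ℂ), (hS q.1 q.1.2).mapsTo (hrne q.2)⟩, hFc.subtype_mk _⟩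
  let γ₀ : C(unitInterval, {z : ℂ // z ≠ 0}) := F.comp ⟨fun s => (0, s), by fun_prop⟩
  let γ₁ : C(unitInterval, {z : ℂ // z ≠ 0}) := F.comp ⟨fun s => (1, s), by fun_prop⟩
  have hr_0 : r 0 = a := by simp [hr]
  have hr_1 : r 1 = b := by simp [hr]
  have hfix : ∀ t : unitInterval, ∀ s ∈ ({0, 1} : Set unitInterval),
      Φ t ((r s : ℝ) : ℂ) = ((r s : ℝ) : ℂ) := by
    intro t s hs
    rcases hs with hs | hs
    · rw [hs, hr_0]
      exact (hS t t.2).support _ (by rw [← hr_0]; exact hrne 0) haK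
    · have hs' : s = 1 := hs
      rw [hs', hr_1]
      exact (hS t t.2).support _ (by rw [← hr_1]; exact hrne 1) hbK
  have hhom : γ₀.HomotopicRel γ₁ {0, 1} := by
    refine ⟨⟨⟨F, fun s => rfl, fun s => rfl⟩, ?_⟩⟩
    intro t s hs
    apply Subtype.ext
    change Φ t ((r s : ℝ) : ℂ) = Φ (0 : unitInterval) ((r s : ℝ) : ℂ)
    rw [hfix t s hs, hfix 0 s hs]
  have hexp : ∀ s, Complex.exp ((Real.log (r s) : ℝ) : ℂ) = ((r s : ℝ) : ℂ) := by
    intro s
    rw [← Complex.ofReal_exp, Real.exp_log (hr0 s)]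
  have hγ₀ : ∀ s, ((γ₀ s : {z : ℂ // z ≠ 0}) : ℂ) = ((r s : ℝ) : ℂ) := by
    intro s
    change Φ ((0 : unitInterval) : ℝ) ((r s : ℝ) : ℂ) = _
    exact h0 _ (hrne s)
  have hγ₁ : ∀ s, ((γ₁ s : {z : ℂ // z ≠ 0}) : ℂ) = tw prof ((r s : ℝ) : ℂ) := by
    intro s
    change Φ ((1 : unitInterval) : ℝ) ((r s : ℝ) : ℂ) = _
    exact h1 _ (hrne s)
  set e : ℂ := ((Real.log (r 0) : ℝ) : ℂ) with he
  have hns : ∀ s, Complex.normSq ((r s : ℝ) : ℂ) = r s * r s := fun s => Complex.normSq_ofReal _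
  have hsm : prof (r 0 * r 0) = 0 := by
    apply prof_of_le
    rw [hr_0]
    nlinarith
  have hbig : prof (r 1 * r 1) = 2 * Real.pi := by
    apply prof_of_ge
    rw [hr_1]
    nlinarith
  have hstart₀ : γ₀ 0 = ⟨Complex.exp e, Complex.exp_ne_zero e⟩ := by
    apply Subtype.ext
    rw [hγ₀]
    exact (hexp 0).symm
  have hstart₁ : γ₁ 0 = ⟨Complex.exp e, Complex.exp_ne_zero e⟩ := by
    apply Subtype.ext
    rw [hγ₁]
    change _ = Complex.exp e
    rw [he, hexp 0]
    unfold tw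
    rw [hns, hsm]
    simp
  have hlog : Continuous (fun s : unitInterval => ((Real.log (r s) : ℝ) : ℂ)) := by
    have : Continuous (fun s : unitInterval => Real.log (r s)) :=
      hrc.log (fun s => (hr0 s).ne')
    exact Complex.continuous_ofReal.comp this
  have key₀ := lift_eq hstart₀ hlog (fun s => by rw [hγ₀, hexp]) rfl
  have hg₁ : Continuous (fun s : unitInterval =>
      ((Real.log (r s) : ℝ) : ℂ) + ((prof (r s * r s) : ℝ) : ℂ) * Complex.I) := by
    refine hlog.add ((Complex.continuous_ofReal.comp ?_).mul continuous_const)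
    exact contDiff_prof.continuous.comp (hrc.mul hrc)
  have key₁ := lift_eq hstart₁ hg₁ (fun s => by
    rw [hγ₁, Complex.exp_add, hexp]
    unfold tw
    rw [hns]
    ring) (by simp [hsm, he])
  have hend := Complex.isCoveringMap_exp.liftPath_apply_one_eq_of_homotopicRel hhom e hstart₀ hstart₁
  rw [← key₀, ← key₁, hbig] at hend
  have h3 : ((2 * Real.pi : ℝ) : ℂ) * Complex.I = 0 := by
    exact left_eq_add.mp hend
  simp [Real.pi_ne_zero] at h3


lemma twistk_mem_SympC (k : ℕ) : tw (profk k) ∈ SympC ({0}ᶜ : Set ℂ) area := by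
  obtain ⟨K, hKM, hK, Φ, hΦ, hS, h0, h1⟩ := twistk_mem_SympC0 k
  have h := hS 1 ⟨zero_le_one, le_rfl⟩
  refine ⟨K, hKM, hK, ?_⟩
  exact {
    smooth := (contDiff_tw' (contDiff_profk k)).contDiffOn
    mapsTo := fun z hz => tw_ne_zero _ hz
    inverse := by
      refine ⟨tw (fun N => - profk k N), (contDiff_tw' (contDiff_profk k).neg).contDiffOn,
        fun z hz => tw_ne_zero _ hz, ?_⟩
      intro z _
      rw [tw_tw, tw_tw]
      exact ⟨by simpa using tw_zero z, by simpa using tw_zero z⟩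
    symplectic := fun z _ v w => area_tw (contDiff_profk k) z v w
    support := fun z hz hzK => by
      rw [← h1 z hz]
      exact h.support z hz hzK }

/-- On the punctured plane `M` with the standard area form there is a compactly supported
symplectomorphism `ψ` (a Dehn twist) which is not in the identity component but is a limit,
uniformly on compact subsets of `M` (and even uniformly on the whole of `M`), of elements of the
identity component. -/
theorem result : SymplecticOn ({0}ᶜ : Set ℂ) area ∧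
    ∃ ψ ∈ SympC ({0}ᶜ : Set ℂ) area, ψ ∉ SympC0 ({0}ᶜ : Set ℂ) area ∧
      ∃ φ : ℕ → ℂ → ℂ,
        (∀ k, φ k ∈ SympC ({0}ᶜ : Set ℂ) area ∧ φ k ∈ SympC0 ({0}ᶜ : Set ℂ) area) ∧
        C0Tendsto ({0}ᶜ : Set ℂ) φ ψ ∧ TendstoUniformlyOn φ ψ atTop ({0}ᶜ : Set ℂ) :=
  ⟨symplectic_area, tw prof, twist_mem_SympC, twist_not_mem_SympC0,
    fun k => tw (profk k), fun k => ⟨twistk_mem_SympC k, twistk_mem_SympC0 k⟩,
    fun _ hL _ => twistk_tendsto.mono hL, twistk_tendsto⟩

end Pool.Agent.Results.MP_2dff6e_gt.PuncturedPlane
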